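import Pool.Agent.Helper57.NX.Defs

/-!
# Project NX, module NX-16: LPP from alignment and localisation
-/

set_option autoImplicit false

open Finset
open scoped BigOperators ComplexConjugate

namespace Pool.Agent.Helper57.NX

noncomputable section

/-- The conclusion of `lp_align`. -/
def AlignC (m : ℕ) (c : Fin (m + 1) → ℝ) (s ε : ℝ) : Prop :=
    ∃ x0 : ℝ, 0 < x0 ∧ ∃ C : ℕ, ∃ σ : ℝ, 0 < σ ∧ ∃ D0 : ℝ,
    ∀ (S : Sys (m + 1)) (N : ℕ) [NeZero N], D0 ≤ S.D → Good S c N x0 →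
    ∀ δ : ℝ, S.D ^ (-σ) ≤ δ → δ ≤ 1 / 2 →
    ∀ X : ℕ, S.Q ≤ X → S.Q * S.D ^ (s - σ) ≤ (X : ℝ) →
    ∀ q0 : ℕ, 1 ≤ q0 → (X : ℝ) * q0 ≤ S.P (Fin.last m) * S.D ^ (-ε) →
    ∀ (f0 : ZMod N → ℂ) (f : Fin m → ZMod N → ℂ),
    Adm δ⁻¹ S.Q f0 → (∀ i, Adm δ⁻¹ S.Q (f i)) →
    ∀ (r : ZMod N) (cc : ℕ → ℂ) (φ : ℕ → ℝ), (∀ j, ‖cc j‖ ≤ 1) → (∀ j, |φ j| ≤ δ⁻¹ / S.Q) →
    δ ≤ ‖form S c 1 f0 (Fin.snoc (α := fun _ => ZMod N → ℂ) f (bphase X r cc φ))‖ →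
    ∃ (cc' : ℕ → ℂ) (θ : ℕ → ℝ), (∀ j, cc' j = cc j ∨ cc' j = 0) ∧
      (∀ j, cc' j ≠ 0 → |φ j - θ (j / q0)| ≤ δ⁻¹ ^ C / X) ∧
      δ ^ C ≤ ‖form S c 1 f0 (Fin.snoc (α := fun _ => ZMod N → ℂ) f (bphase X r cc' φ))‖

/-- The conclusion of `lp_local`. -/
def LocalC (m : ℕ) (c : Fin (m + 1) → ℝ) (s : ℝ) : Prop :=
    ∃ ε0 : ℝ, 0 < ε0 ∧ ∀ ε : ℝ, 0 < ε → ε ≤ ε0 → ∀ n : ℕ,
    ∃ x0 : ℝ, 0 < x0 ∧ ∃ C : ℕ, ∃ σ : ℝ, 0 < σ ∧ ∃ D0 : ℝ,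
    ∀ (S : Sys (m + 1)) (N : ℕ) [NeZero N], D0 ≤ S.D → Good S c N x0 →
    ∀ δ : ℝ, S.D ^ (-σ) ≤ δ → δ ≤ 1 / 2 →
    ∀ X : ℕ, S.Q ≤ X → S.Q * S.D ^ (s - σ) ≤ (X : ℝ) → (X : ℝ) ≤ S.Q * S.D ^ s →
    ∀ q0 : ℕ, 1 ≤ q0 → S.P (Fin.last m) * S.D ^ (-ε) / 2 ≤ (X : ℝ) * q0 →
      (X : ℝ) * q0 ≤ S.P (Fin.last m) * S.D ^ (-ε) →
    ∀ (f0 : ZMod N → ℂ) (f : Fin m → ZMod N → ℂ),
    Adm δ⁻¹ S.Q f0 → (∀ i, Adm δ⁻¹ S.Q (f i)) →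
    ∀ (r : ZMod N) (cc : ℕ → ℂ) (φ : ℕ → ℝ) (θ : ℕ → ℝ), (∀ j, ‖cc j‖ ≤ 1) →
    (∀ j, |φ j| ≤ δ⁻¹ / S.Q) → (∀ j, cc j ≠ 0 → |φ j - θ (j / q0)| ≤ δ⁻¹ ^ n / X) →
    δ ^ n ≤ ‖form S c 1 f0 (Fin.snoc (α := fun _ => ZMod N → ℂ) f (bphase X r cc φ))‖ →
    ∃ j, cc j ≠ 0 ∧ |φ j| ≤ δ⁻¹ ^ C / X

/-- `Good` is monotone in the slack. -/
theorem goodMono16 {m : ℕ} {S : Sys m} {c : Fin m → ℝ} {N : ℕ} {x y : ℝ} (hxy : x ≤ y)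
    (hD : 1 ≤ S.D) (h : Good S c N x) : Good S c N y where
  ρ0 := h.ρ0
  ρ1 := h.ρ1
  Q1 := h.Q1
  Q2 := h.Q2
  P1 i := le_trans (mul_le_mul_of_nonneg_left
    (Real.rpow_le_rpow_of_exponent_le hD (by linarith)) (Nat.cast_nonneg _)) (h.P1 i)
  P2 i := le_trans (h.P2 i) (mul_le_mul_of_nonneg_left
    (Real.rpow_le_rpow_of_exponent_le hD (by linarith)) (Nat.cast_nonneg _))
  N1 i := le_trans (h.N1 i) (mul_le_mul_of_nonneg_left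
    (Real.rpow_le_rpow_of_exponent_le hD hxy) (Nat.cast_nonneg _))
  N2 := h.N2
  u1 := h.u1
  u2 := h.u2
  T1 := le_trans (Real.rpow_le_rpow_of_exponent_le hD (by linarith)) h.T1

/-- LPP from the conclusions of alignment and localisation. -/
theorem lpp_core (m : ℕ) (c : Fin (m + 1) → ℝ) (s : ℝ) (hs : s < c (Fin.last m))
    (hA : ∀ ε : ℝ, 0 < ε → AlignC m c s ε) (hL : LocalC m c s) : LPP m c s := by
  obtain ⟨ε0, hε0, hL⟩ := hL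
  set ε : ℝ := min ε0 ((c (Fin.last m) - s) / 4) with hεdef
  have hε : 0 < ε := lt_min hε0 (by linarith)
  have hε1 : ε ≤ ε0 := min_le_left _ _
  have hε2 : ε ≤ (c (Fin.last m) - s) / 4 := min_le_right _ _
  obtain ⟨xA, hxA, CA, σA, hσA, DA, hA⟩ := hA ε hε
  obtain ⟨xL, hxL, CL, σL, hσL, DL, hL⟩ := hL ε hε hε1 CA
  refine ⟨min (min xA xL) ((c (Fin.last m) - s) / 4), lt_min (lt_min hxA hxL) (by linarith),
    CL + 1, min σA σL, lt_min hσA hσL, max (max DA DL) 1, ?_⟩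
  intro S N _ hD hG δ hδ hδ2 X hQX hX1 hX2 f0 f hf0 hf r cc φ hcc hφ hlarge
  have hD1 : 1 ≤ S.D := le_trans (le_max_right _ _) hD
  have hDA : DA ≤ S.D := le_trans (le_trans (le_max_left _ _) (le_max_left _ _)) hD
  have hDL : DL ≤ S.D := le_trans (le_trans (le_max_right _ _) (le_max_left _ _)) hD
  have hDpos : 0 < S.D := lt_of_lt_of_le one_pos hD1
  have hGA : Good S c N xA := goodMono16 (le_trans (min_le_left _ _) (min_le_left _ _)) hD1 hG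
  have hGL : Good S c N xL := goodMono16 (le_trans (min_le_left _ _) (min_le_right _ _)) hD1 hG
  have hGs : Good S c N ((c (Fin.last m) - s) / 4) := goodMono16 (min_le_right _ _) hD1 hG
  have hδpos : 0 < δ := lt_of_lt_of_le (Real.rpow_pos_of_pos hDpos _) hδ
  have hδA : S.D ^ (-σA) ≤ δ := le_trans (Real.rpow_le_rpow_of_exponent_le hD1
    (neg_le_neg (min_le_left _ _))) hδ
  have hδL : S.D ^ (-σL) ≤ δ := le_trans (Real.rpow_le_rpow_of_exponent_le hD1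
    (neg_le_neg (min_le_right _ _))) hδ
  have hQ1 : (1 : ℝ) ≤ S.Q := le_trans (Real.one_le_rpow hD1 (by norm_num)) hG.Q1
  have hXQ : (S.Q : ℝ) ≤ X := by exact_mod_cast hQX
  have hXpos : (0 : ℝ) < X := by linarith
  have hXA : S.Q * S.D ^ (s - σA) ≤ (X : ℝ) := le_trans (mul_le_mul_of_nonneg_left
    (Real.rpow_le_rpow_of_exponent_le hD1 (by linarith [min_le_left σA σL]))
    (Nat.cast_nonneg _)) hX1
  have hXL : S.Q * S.D ^ (s - σL) ≤ (X : ℝ) := le_trans (mul_le_mul_of_nonneg_left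
    (Real.rpow_le_rpow_of_exponent_le hD1 (by linarith [min_le_right σA σL]))
    (Nat.cast_nonneg _)) hX1
  -- the choice of `q0`
  have hP : (X : ℝ) ≤ S.P (Fin.last m) * S.D ^ (-ε) := by
    have h1 := hGs.P1 (Fin.last m)
    have h2 : (S.Q : ℝ) * S.D ^ s
        ≤ (S.Q * S.D ^ (c (Fin.last m) - (c (Fin.last m) - s) / 4)) * S.D ^ (-ε) := by
      rw [mul_assoc, ← Real.rpow_add hDpos]
      exact mul_le_mul_of_nonneg_left (Real.rpow_le_rpow_of_exponent_le hD1 (by linarith))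
        (Nat.cast_nonneg _)
    exact le_trans hX2 (le_trans h2 (mul_le_mul_of_nonneg_right h1
      (Real.rpow_nonneg hDpos.le _)))
  set y : ℝ := S.P (Fin.last m) * S.D ^ (-ε) / X with hy
  have hy1 : 1 ≤ y := (one_le_div hXpos).2 hP
  have hyX : y * X = S.P (Fin.last m) * S.D ^ (-ε) := div_mul_cancel₀ _ hXpos.ne'
  have hq1 : 1 ≤ ⌊y⌋₊ := Nat.le_floor (by exact_mod_cast hy1)
  have hq2 : (⌊y⌋₊ : ℝ) ≤ y := Nat.floor_le (by linarith)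
  have hq3 : y / 2 ≤ ⌊y⌋₊ := by
    have h1 : y < ⌊y⌋₊ + 1 := Nat.lt_floor_add_one y
    have h2 : (1 : ℝ) ≤ ⌊y⌋₊ := by exact_mod_cast hq1
    linarith
  have hXq1 : (X : ℝ) * ⌊y⌋₊ ≤ S.P (Fin.last m) * S.D ^ (-ε) := by
    rw [← hyX, mul_comm]
    exact mul_le_mul_of_nonneg_right hq2 hXpos.le
  have hXq2 : S.P (Fin.last m) * S.D ^ (-ε) / 2 ≤ (X : ℝ) * ⌊y⌋₊ := by
    rw [← hyX]
    nlinarith [mul_le_mul_of_nonneg_right hq3 hXpos.le]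
  by_contra hcon
  obtain ⟨cc', θ, h1, h2, h3⟩ := hA S N hDA hGA δ hδA hδ2 X hQX hXA ⌊y⌋₊ hq1 hXq1 f0 f hf0 hf
    r cc φ hcc hφ (not_lt.1 hcon)
  have hcc' : ∀ j, ‖cc' j‖ ≤ 1 := by
    intro j
    rcases h1 j with h | h
    · rw [h]; exact hcc j
    · rw [h, norm_zero]; exact zero_le_one
  obtain ⟨j, hj1, hj2⟩ := hL S N hDL hGL δ hδL hδ2 X hQX hXL hX2 ⌊y⌋₊ hq1 hXq2 hXq1 f0 f hf0 hf
    r cc' φ θ hcc' hφ h2 h3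
  have hj3 : cc j ≠ 0 := by
    rcases h1 j with h | h
    · rwa [h] at hj1
    · exact absurd h hj1
  have h4 := le_trans (hlarge j hj3) hj2
  have h5 : δ⁻¹ ^ (CL + 1) ≤ δ⁻¹ ^ CL := by
    rwa [div_le_div_iff_of_pos_right hXpos] at h4
  have h6 : (1 : ℝ) < δ⁻¹ := by
    rw [one_lt_inv₀ hδpos]
    linarith
  have h7 : δ⁻¹ ^ CL < δ⁻¹ ^ (CL + 1) := pow_lt_pow_right₀ h6 (Nat.lt_succ_self _)
  exact absurd h5 (not_le.2 h7)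

end

end Pool.Agent.Helper57.NX
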